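import Pool.Agent.H16.NMot.Main

/-!
The contraction `F = Hom^eff(R(1), -)` and `n`-motives.

(1) `F^j = Hom^eff(R(j), -)` maps `n`-motives to `(n - j)`-motives if `j ≥ n - 1`; for `j = 1` this
is the assertion of Q1 for `n ≤ 2`.
(2) For `n ≤ d`, `F^j` maps `n`-motives to `(n - j)`-motives if and only if
`Hom^eff(R_tr(X), R(dim X - j))` is a `(dim X - j)`-motive for the smooth projective varieties `X`
with `j + 2 ≤ dim X ≤ d`.
(3) Q1 for `m ≤ d` implies that `F N` is an `(n - 1)`-motive for all `n` and all `N` in the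
localizing subcategory generated by the `R_tr(X)(i)` with `dim X ≤ d`, `dim X + i ≤ n`.  By (1) this
applies to `d = 2`.

`T.Mot n` is the class of the `(n - 1)`-motives.
-/

set_option autoImplicit false

open CategoryTheory Limits Pretriangulated

universe v u

namespace Pool.Agent.Results.MP_3870ba_ag.IteratedContraction

open Pool.NMot

theorem result (C : Type u) [Category.{v} C] [Preadditive C] [HasZeroObject C] [HasShift C ℤ]
    [∀ n : ℤ, (shiftFunctor C n).Additive] [Pretriangulated C] [HasCoproducts.{0} C]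
    (T : Theory C) :
    (∀ n j, n ≤ j + 1 → T.Q j n) ∧
    (∀ d j, (∀ n ≤ d, T.Q j n) ↔ ∀ X, T.Proj X → j + 2 ≤ T.dim X → T.dim X ≤ d →
      T.Mot (T.dim X + 1 - j) (T.Co X (T.dim X - j))) ∧
    (∀ d n N, (∀ m ≤ d, T.Q 1 m) →
      Loc (fun Y => ∃ X i, T.dim X ≤ d ∧ T.dim X + i ≤ n ∧ Y = T.M X i) N → T.Mot n (T.F.obj N)) :=
  ⟨fun _ _ h => q_small T h, q_iff T, fun d n _ h hN => q_twist T d n h hN⟩

end Pool.Agent.Results.MP_3870ba_ag.IteratedContraction
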